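import Pool.Agent.W606.PS.Fin

/-!
MP_9863c1_co, Q2: planar graphs embed in the strong product of a graph of bounded treewidth and a
path, the smaller factor having at most `C √|V(G)|` vertices.
-/

set_option autoImplicit false

namespace Pool.Agent.Results.MP_9863c1_co.FactorOrderSqrt

/-- `G` can be drawn in the plane: distinct points for the vertices, a simple arc for every edge
between its two ends, meeting no other vertex, and two different edges meet only in a common end. -/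
def PlaneDrawable {V : Type} (G : SimpleGraph V) : Prop :=
  ∃ (f : V → ℂ) (γ : ∀ u v : V, G.Adj u v → Path (f u) (f v)),
    Function.Injective f ∧
    (∀ (u v : V) (h : G.Adj u v), Function.Injective ⇑(γ u v h)) ∧
    (∀ (u v : V) (h : G.Adj u v) (s : unitInterval) (w : V),
      γ u v h s = f w → w = u ∨ w = v) ∧
    (∀ (u v x y : V) (h : G.Adj u v) (h' : G.Adj x y) (s t : unitInterval),
      γ u v h s = γ x y h' t → s(u, v) ≠ s(x, y) →
        ∃ w : V, (w = u ∨ w = v) ∧ (w = x ∨ w = y) ∧ γ u v h s = f w)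

/-- `G` has treewidth at most `k`: a tree decomposition with all bags of size at most `k + 1`. -/
def TreewidthLE {V : Type} (G : SimpleGraph V) (k : ℕ) : Prop :=
  ∃ (m : ℕ) (T : SimpleGraph (Fin m)) (B : Fin m → Finset V),
    T.IsTree ∧ (∀ u v, G.Adj u v → ∃ t, u ∈ B t ∧ v ∈ B t) ∧
    (∀ v, (T.induce {t | v ∈ B t}).Connected) ∧ ∀ t, (B t).card ≤ k + 1

/-- the strong product of two graphs. -/
def StrongProd {A B : Type} (H : SimpleGraph A) (P : SimpleGraph B) : SimpleGraph (A × B) where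
  Adj p q := p ≠ q ∧ (p.1 = q.1 ∨ H.Adj p.1 q.1) ∧ (p.2 = q.2 ∨ P.Adj p.2 q.2)
  symm := ⟨fun _ _ h => ⟨h.1.symm, h.2.1.imp Eq.symm fun e => e.symm,
    h.2.2.imp Eq.symm fun e => e.symm⟩⟩
  loopless := ⟨fun _ h => h.1 rfl⟩

/-- There are constants `c`, `C` such that every finite plane drawable graph `G` is isomorphic to a
subgraph of `H ⊠ P` with `tw(H) ≤ c`, `P` a path and `min (|V(H)|, |V(P)|) ≤ C √|V(G)|`. -/
theorem result : ∃ c C : ℕ, ∀ (V : Type) [Fintype V] (G : SimpleGraph V), PlaneDrawable G →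
    ∃ (a b : ℕ) (H : SimpleGraph (Fin a)), TreewidthLE H c ∧
      ((min a b : ℕ) : ℝ) ≤ C * Real.sqrt (Fintype.card V) ∧
      ∃ φ : G →g StrongProd H (SimpleGraph.pathGraph b), Function.Injective φ := by
  obtain ⟨c, C, h⟩ := Pool.Agent.W606.PS.own Pool.Agent.W606.PS.Fin.finT
    Pool.Agent.W606.PS.All.out
  refine ⟨c, C, ?_⟩
  intro V _ G hG
  obtain ⟨a, b, H, hH, ⟨φ, hφ⟩, hb⟩ := (h V G hG).2
  refine ⟨a, b, H, hH, hb, ⟨⟨φ, ?_⟩, hφ⟩⟩
  intro u v e
  have := φ.map_adj e
  simp only [Pool.Agent.W606.PS.SP, SimpleGraph.fromRel_adj] at this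
  obtain ⟨hne, h1 | h1⟩ := this
  · exact ⟨hne, h1.1, h1.2⟩
  · exact ⟨hne, h1.1.imp Eq.symm fun e => e.symm, h1.2.imp Eq.symm fun e => e.symm⟩

end Pool.Agent.Results.MP_9863c1_co.FactorOrderSqrt
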